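import Pool.Agent.Run7.h463.Fftp

/-!
# An automatic group without the falsification by fellow traveller property

Words over `X` and its formal inverses are lists of pairs `(x, b)`, `x ∈ X`, `b` a Boolean, where
`(x, true)` stands for `x` and `(x, false)` for the inverse of `x`; `ev X w` is the element which
the word `w` represents.  From `Pool/Agent/Run7/h463/Fftp.lean`:

* `IsGeod X v`: every word `w` with `ev X w = ev X v` has length at least that of `v`;
* `FellowTravel X K v w`: for every `t`, the elements represented by the prefixes of length `t` of
  `v` and `w` differ (on the right) by an element of word length at most `K`;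
* `FFTP X`: for some `K`, every non-geodesic word `v` has a shorter word `w` representing the same
  element such that `v` and `w` fellow travel with constant `K`.
-/

set_option autoImplicit false

namespace Pool.Agent.Results.MP_a651d8_al.AutomaticWithoutFFTP

open Run7.h463

/-- The group `H` is automatic: over some finite generating set there is a regular language of
words mapping onto `H` such that any two of its words representing elements at distance at most
`1` fellow travel with a uniform constant. -/
def IsAutomatic (H : Type) [Group H] : Prop :=
  ∃ X : Finset H, Subgroup.closure (X : Set H) = ⊤ ∧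
    ∃ L : Language ({x // x ∈ X} × Bool), L.IsRegular ∧ (∀ g : H, ∃ w ∈ L, ev X w = g) ∧
      ∃ K : ℕ, ∀ u ∈ L, ∀ v ∈ L,
        (∃ z : List ({x // x ∈ X} × Bool), z.length ≤ 1 ∧ ev X u * ev X z = ev X v) →
          FellowTravel X K u v

/-- There is an automatic group which fails the falsification by fellow traveller property with
respect to every finite generating set. -/
theorem result : ∃ (G : Type) (_ : Group G), IsAutomatic G ∧
    ∀ X : Finset G, Subgroup.closure (X : Set G) = ⊤ → ¬ FFTP X := by
  refine ⟨Run7.h463.G, inferInstance, ?_, fun X hX => not_fftp X hX⟩
  obtain ⟨X, hX, σ, hσ, M, h1, K, h2⟩ := Run7.h463.automatic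
  exact ⟨X, hX, M.accepts, ⟨σ, hσ, M, rfl⟩, h1, K, fun u hu v hv hz t => h2 u v hu hv hz t⟩

end Pool.Agent.Results.MP_a651d8_al.AutomaticWithoutFFTP
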